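import Pool.Agent.Run7.h95.NT.PackUp
import Pool.Agent.Run7.h95.SZ.Full
import Pool.Agent.TH867.EC.Heights

/-!
# Semistable elliptic curves whose conductor divides a random natural number

Let `m` be a random natural number. We study the random set of ALL semistable elliptic curves over
`ℚ` (no condition on their discriminant or height) which have a conductor dividing `m` and belong to
a given family: the curves with full rational 2-torsion, or the curves whose `j`-invariant is a value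
of a given rational function with at least three poles, all of them rational (for instance the curves
with a rational cyclic subgroup of order 4, 6 or 8). This random set has a limit law, all of whose
moments are the limits of the moments, and for every function `ψ` tending to infinity, as slowly as
we like, almost always all curves of the set satisfy `|Δ| ≤ ψ(m)`.
-/

set_option autoImplicit false

namespace Pool.Agent.Results.MP_d8bd92_nt.ConductorDividingRandom

open Polynomial Filter Topology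

/-- `W` is a minimal model of a semistable elliptic curve over `ℚ`: `Δ ≠ 0` and `gcd(c₄, Δ) = 1` -/
def Semistable (W : WeierstrassCurve ℤ) : Prop := W.Δ ≠ 0 ∧ IsCoprime W.c₄ W.Δ

/-- all points of order two are rational -/
def FullTwoTorsion (W : WeierstrassCurve ℤ) : Prop :=
  ∃ r₁ r₂ r₃ : ℚ, ∀ x : ℚ,
    4 * x ^ 3 + W.b₂ * x ^ 2 + 2 * W.b₄ * x + W.b₆ = 4 * (x - r₁) * (x - r₂) * (x - r₃)

/-- the rational function `J = P / ∏ (X - r_l) ^ e_l` on the projective line, `none` being the point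
at infinity, where its value is the coefficient of `P` of degree `∑ e_l` -/
noncomputable def J (P : ℚ[X]) {L : ℕ} (r : Fin L → ℚ) (e : Fin L → ℕ) : Option ℚ → ℚ
  | none => P.coeff (∑ l, e l)
  | some x => P.eval x / ∏ l, (x - r l) ^ e l

/-- the `j`-invariant is a value of `J` at a rational point which is not a pole -/
def InFamily (P : ℚ[X]) {L : ℕ} (r : Fin L → ℚ) (e : Fin L → ℕ) (W : WeierstrassCurve ℤ) : Prop :=
  ∃ x : Option ℚ, (∀ l, x ≠ some (r l)) ∧ J P r e x = (W.c₄ : ℚ) ^ 3 / W.Δ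

/-- the semistable elliptic curves over `ℚ` of the kind `F`, given by their invariants `(c₄, c₆)` -/
def Curve (F : WeierstrassCurve ℤ → Prop) : Type :=
  {q : ℤ × ℤ // ∃ W : WeierstrassCurve ℤ, Semistable W ∧ F W ∧ q = (W.c₄, W.c₆)}

/-- the minimal discriminant `(c₄³ - c₆²) / 1728` -/
def disc {F : WeierstrassCurve ℤ → Prop} (E : Curve F) : ℤ := (E.1.1 ^ 3 - E.1.2 ^ 2) / 1728

/-- the conductor of a semistable curve, the product of the primes dividing the minimal
discriminant -/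
def conductor {F : WeierstrassCurve ℤ → Prop} (E : Curve F) : ℕ :=
  ∏ p ∈ (disc E).natAbs.primeFactors, p

/-- the curves of the kind `F` with conductor dividing `m` -/
def T (F : WeierstrassCurve ℤ → Prop) (m : ℕ) : Set (Curve F) := {E | conductor E ∣ m}

/-- the least common multiple of the conductors of `E_1, …, E_k` -/
def lcmN {F : WeierstrassCurve ℤ → Prop} {k : ℕ} (E : Fin k → Curve F) : ℕ :=
  Finset.univ.lcm fun i => conductor (E i)

/-- the set of the natural numbers `m ≥ 1` with the property `P` has the natural density `δ` -/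
def Density (P : ℕ → Prop) (δ : ℝ) : Prop :=
  Tendsto (fun N : ℕ => ({m : ℕ | 1 ≤ m ∧ m ≤ N ∧ P m}.ncard : ℝ) / (N : ℝ)) atTop (𝓝 δ)

open Classical in
/-- the statements about the random finite set `T m` of the curves of the kind `F` with conductor
dividing `m`, with the exponent `θ`:
(1) `T m` is finite for `m ≥ 1`.
(2) For `k ≥ 1` and `δ > 0` at most `C X ^ (1 - (1 - θ) / k + δ)` of the `k`-tuples of curves of the
kind `F` have conductors with a least common multiple `≤ X`.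
(3) For `k ≥ 1` the mean value of `#(T m) ^ k` over `m ≤ N` converges for `N → ∞`, to the convergent
sum of `1 / lcm (N(E_1), …, N(E_k))` over the `k`-tuples of curves.
(4) There are `w S ≥ 0`, for the finite sets `S` of curves, with `∑ w S = 1`, the `k`-th moments
`∑ (#S) ^ k w S` being the limits in (3), such that for every set `Φ` of sets of curves the set of
the `m` with `T m ∈ Φ` has the natural density `∑ w S` over the `S` in `Φ`.
(5) For all `Z, N ≥ 1` at most `C Z ^ (- (1 - θ)) N` natural numbers `m ≤ N` are divisible by the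
conductor of a curve of the kind `F` with conductor `> Z`.
(6) For every function `ψ` tending to infinity, for almost all `m` (all but a set of natural density
zero) all semistable curves of the kind `F` with conductor dividing `m` satisfy `|Δ| ≤ ψ(m)`. -/
def Law (F : WeierstrassCurve ℤ → Prop) (θ : ℝ) : Prop :=
  (∀ m : ℕ, 1 ≤ m → (T F m).Finite) ∧
  (∀ k : ℕ, 1 ≤ k → ∀ δ : ℝ, 0 < δ → ∃ C : ℝ, ∀ X : ℝ, 1 ≤ X →
    {E : Fin k → Curve F | (lcmN E : ℝ) ≤ X}.Finite ∧
    ({E : Fin k → Curve F | (lcmN E : ℝ) ≤ X}.ncard : ℝ) ≤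
      C * X ^ (1 - (1 - θ) / (k : ℝ) + δ)) ∧
  (∀ k : ℕ, 1 ≤ k → (Summable fun E : Fin k → Curve F => (lcmN E : ℝ)⁻¹) ∧
    Tendsto (fun N : ℕ => (∑ m ∈ Finset.Icc 1 N, ((T F m).ncard : ℝ) ^ k) / (N : ℝ))
      atTop (𝓝 (∑' E : Fin k → Curve F, (lcmN E : ℝ)⁻¹))) ∧
  (∃ w : Finset (Curve F) → ℝ, (∀ S, 0 ≤ w S) ∧ HasSum w 1 ∧
    (∀ k : ℕ, 1 ≤ k → HasSum (fun S : Finset (Curve F) => (S.card : ℝ) ^ k * w S)
      (∑' E : Fin k → Curve F, (lcmN E : ℝ)⁻¹)) ∧
    ∀ Φ : Set (Set (Curve F)), Density (fun m => T F m ∈ Φ)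
      (∑' S : Finset (Curve F), if (S : Set (Curve F)) ∈ Φ then w S else 0)) ∧
  (∃ C : ℝ, ∀ Z : ℝ, ∀ N : ℕ, 1 ≤ Z → 1 ≤ N →
    ({m : ℕ | 1 ≤ m ∧ m ≤ N ∧ ∃ E ∈ T F m, Z < (conductor E : ℝ)}.ncard : ℝ) ≤
      C * Z ^ (-(1 - θ)) * N) ∧
  ∀ ψ : ℕ → ℝ, Tendsto ψ atTop atTop →
    Density (fun m => ¬ ∀ W : WeierstrassCurve ℤ, Semistable W → F W →
      (∀ p : ℕ, p.Prime → (p : ℤ) ∣ W.Δ → p ∣ m) → |(W.Δ : ℝ)| ≤ ψ m) 0

variable {F : WeierstrassCurve ℤ → Prop}

theorem disc_eq {E : Curve F} {W : WeierstrassCurve ℤ} (h : E.1 = (W.c₄, W.c₆)) :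
    disc E = W.Δ := by
  unfold disc
  rw [h]
  show (W.c₄ ^ 3 - W.c₆ ^ 2) / 1728 = W.Δ
  rw [← W.c_relation]
  exact Int.mul_ediv_cancel_left _ (by norm_num)

theorem density_zero_mono {P Q : ℕ → Prop} (h : Density Q 0) (hPQ : ∀ m, P m → Q m) :
    Density P 0 := by
  refine squeeze_zero' (Eventually.of_forall fun N => by positivity) ?_ h
  filter_upwards with N
  refine div_le_div_of_nonneg_right ?_ (Nat.cast_nonneg N)
  rw [Nat.cast_le]
  refine Set.ncard_le_ncard ?_ ((Set.finite_Icc 1 N).subset fun m hm => ⟨hm.1, hm.2.1⟩)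
  rintro m ⟨hm1, hm2, hm3⟩
  exact ⟨hm1, hm2, hPQ m hm3⟩

theorem prod_dvd_iff {S : Finset ℕ} (hS : ∀ p ∈ S, p.Prime) (m : ℕ) :
    ∏ p ∈ S, p ∣ m ↔ ∀ p ∈ S, p ∣ m := by
  constructor
  · intro h p hp
    exact (Finset.dvd_prod_of_mem (fun p => p) hp).trans h
  · intro h
    exact Finset.prod_primes_dvd m (fun p hp => (hS p hp).prime) h

theorem lcm_eq {k : ℕ} (S : Fin k → Finset ℕ) (hS : ∀ i, ∀ p ∈ S i, p.Prime) :
    (Finset.univ.lcm fun i => ∏ p ∈ S i, p) = ∏ p ∈ Finset.univ.biUnion S, p := by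
  refine Nat.dvd_antisymm ?_ ?_
  · refine Finset.lcm_dvd fun i _ => ?_
    exact Finset.prod_dvd_prod_of_subset _ _ _
      (Finset.subset_biUnion_of_mem S (Finset.mem_univ i))
  · rw [prod_dvd_iff]
    · intro p hp
      obtain ⟨i, hi, hpi⟩ := Finset.mem_biUnion.1 hp
      exact (Finset.dvd_prod_of_mem (fun p => p) hpi).trans
        (Finset.dvd_lcm (f := fun i => ∏ p ∈ S i, p) hi)
    · intro p hp
      obtain ⟨i, hi, hpi⟩ := Finset.mem_biUnion.1 hp
      exact hS i p hpi

/-- the denominator of the invariant is the discriminant -/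
theorem den_j {a d : ℤ} (hd : d ≠ 0) (h : IsCoprime a d) :
    ((a : ℚ) ^ 3 / d).den = d.natAbs := by
  have key : ∀ a d : ℤ, 0 < d → IsCoprime a d → ((a : ℚ) / d).den = d.natAbs := by
    intro a d hd h
    have h1 := Rat.den_div_eq_of_coprime hd (Int.isCoprime_iff_gcd_eq_one.1 h)
    omega
  rcases lt_or_gt_of_ne hd with h0 | h0
  · have h1 := key (-(a ^ 3)) (-d) (by omega) ((h.pow_left (m := 3)).neg_neg)
    have h2 : ((-(a ^ 3) : ℤ) : ℚ) / ((-d : ℤ) : ℚ) = (a : ℚ) ^ 3 / d := by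
      push_cast
      rw [neg_div_neg_eq]
    rw [h2] at h1
    rw [h1, Int.natAbs_neg]
  · have h1 := key (a ^ 3) d h0 (h.pow_left (m := 3))
    push_cast at h1
    exact h1

open Classical in
/-- the main theorem for a kind of curves which is contained in a family -/
theorem law_of (P : ℚ[X]) {L : ℕ} (hL : 3 ≤ L) (r : Fin L → ℚ) (hr : Function.Injective r)
    (e : Fin L → ℕ) (he : ∀ l, 1 ≤ e l) (hdeg : P.natDegree ≤ ∑ l, e l)
    (hPr : ∀ l, P.eval (r l) ≠ 0) (hF : ∀ W, Semistable W → F W → InFamily P r e W) :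
    Law F (2 / (L : ℝ)) ∧ ∀ (c₁ X₀ : ℝ), 0 < c₁ →
      (∀ X : ℝ, X₀ ≤ X → ∃ S : Finset (Curve F), (∀ E ∈ S, (conductor E : ℝ) ≤ X) ∧
        c₁ * X ^ (2 / (L : ℝ)) ≤ S.card) →
      ∀ δ : ℝ, 0 < δ → ∃ c : ℝ, 0 < c ∧ ∀ Z : ℝ, 1 ≤ Z → ∃ τ : ℝ,
        Density (fun m => ∃ E ∈ T F m, Z < (conductor E : ℝ)) τ ∧
          c * Z ^ (-(1 - 2 / (L : ℝ)) - δ) ≤ τ := by
  have hLR : (3 : ℝ) ≤ L := by exact_mod_cast hL
  have hL0 : (0 : ℝ) < L := by linarith
  have hθ1 : 2 / (L : ℝ) < 1 := by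
    rw [div_lt_one hL0]
    linarith
  have hθ0 : 0 < 2 / (L : ℝ) := by positivity
  obtain ⟨-, c₂, -, C₀, -, hc₂, hC₀, -, hup, hunit⟩ :=
    Run7.h95.NT.val_hyps P hL r hr e he hdeg hPr
  have hJ : ∀ x, J P r e x = Run7.h95.NT.J P r e x := fun x => by cases x <;> rfl
  obtain ⟨f, hf⟩ : ∃ f : Curve F → Run7.h95.NT.Val P r e,
      ∀ E, (f E).1 = (E.1.1 : ℚ) ^ 3 / disc E := by
    refine ⟨fun E => ⟨(E.1.1 : ℚ) ^ 3 / disc E, ?_⟩, fun E => rfl⟩
    obtain ⟨W, hW, hFW, hq⟩ := E.2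
    obtain ⟨x, hx, hxj⟩ := hF W hW hFW
    refine ⟨x, hx, ?_⟩
    rw [← hJ, hxj, disc_eq hq, hq]
  have hcop : ∀ E : Curve F, disc E ≠ 0 ∧ IsCoprime E.1.1 (disc E) ∧
      1728 * disc E = E.1.1 ^ 3 - E.1.2 ^ 2 := by
    intro E
    obtain ⟨W, hW, hFW, hq⟩ := E.2
    rw [disc_eq hq, hq]
    exact ⟨hW.1, hW.2, W.c_relation⟩
  have hden : ∀ E : Curve F, (f E).1.den = (disc E).natAbs := by
    intro E
    rw [hf]
    exact den_j (hcop E).1 (hcop E).2.1
  have hA : ∀ E : Curve F, (disc E).natAbs.primeFactors = Run7.h95.NT.denP (f E) := by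
    intro E
    unfold Run7.h95.NT.denP
    rw [hden]
  have hfib : ∀ i, ∀ S : Finset (Curve F), (∀ x ∈ S, f x = i) → S.card ≤ 4 := by
    intro i S hS
    have h1 : S.card ≤ (Finset.univ : Finset (Bool × Bool)).card := by
      refine Finset.card_le_card_of_injOn
        (fun E : Curve F => (decide (0 < disc E), decide (0 ≤ E.1.2)))
        (fun _ _ => Finset.mem_coe.2 (Finset.mem_univ _)) ?_
      intro E hE E' hE' heq
      have hE1 := hS E (Finset.mem_coe.1 hE)
      have hE2 := hS E' (Finset.mem_coe.1 hE')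
      have e1 := congrArg Prod.fst heq
      have e2 := congrArg Prod.snd heq
      simp only [decide_eq_decide] at e1 e2
      have e3 : (disc E).natAbs = (disc E').natAbs := by
        rw [← hden, ← hden, hE1, hE2]
      have e4 : disc E = disc E' := by
        have := (hcop E).1
        have := (hcop E').1
        omega
      have e5 : (E.1.1 : ℚ) ^ 3 / disc E = (E'.1.1 : ℚ) ^ 3 / disc E' := by
        rw [← hf, ← hf, hE1, hE2]
      rw [e4] at e5
      have hne : (disc E' : ℚ) ≠ 0 := by exact_mod_cast (hcop E').1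
      have e6 : (E.1.1 : ℚ) ^ 3 = (E'.1.1 : ℚ) ^ 3 := by
        field_simp at e5
        exact e5
      have e7 : E.1.1 ^ 3 = E'.1.1 ^ 3 := by exact_mod_cast e6
      have e8 : E.1.1 = E'.1.1 := (Odd.strictMono_pow (by decide : Odd 3)).injective e7
      have e9 : E.1.2 ^ 2 = E'.1.2 ^ 2 := by
        have g1 := (hcop E).2.2
        have g2 := (hcop E').2.2
        rw [e4, e8] at g1
        linarith
      have e10 : E.1.2 = E'.1.2 := by
        rcases sq_eq_sq_iff_eq_or_eq_neg.1 e9 with h | h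
        · exact h
        · by_cases h0 : 0 ≤ E.1.2
          · have := e2.1 h0
            omega
          · have h0' : ¬ 0 ≤ E'.1.2 := fun h' => h0 (e2.2 h')
            omega
      exact Subtype.ext (Prod.ext e8 e10)
    simpa using h1
  obtain ⟨hup', hunit'⟩ := Run7.h95.NT.pull (A := Run7.h95.NT.denP) hc₂ hC₀ f 4 (by norm_num) hfib
    hup hunit
  have hprime : ∀ E : Curve F, ∀ p ∈ (disc E).natAbs.primeFactors, p.Prime :=
    fun E p hp => Nat.prime_of_mem_primeFactors hp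
  have hup2 : ∀ X : ℝ, 1 ≤ X → ∀ S : Finset (Curve F),
      (∀ E ∈ S, ((∏ p ∈ (disc E).natAbs.primeFactors, p : ℕ) : ℝ) ≤ X) →
      (S.card : ℝ) ≤ (((4 : ℕ) : ℝ) * c₂) * X ^ (2 / (L : ℝ)) := by
    intro X hX S hS
    exact hup' X hX S fun E hE => by
      rw [← hA]
      exact hS E hE
  have hunit2 : ∀ B : Finset ℕ, (∀ p ∈ B, p.Prime) → ∀ S : Finset (Curve F),
      (∀ E ∈ S, (disc E).natAbs.primeFactors ⊆ B) →
      (S.card : ℝ) ≤ (((4 : ℕ) : ℝ) * C₀) ^ (B.card + 1) := by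
    intro B hB S hS
    exact hunit' B hB S fun E hE => by
      rw [← hA]
      exact hS E hE
  have hV : ∀ m, T F m =
      Run7.h95.NT.V (fun E : Curve F => (disc E).natAbs.primeFactors) m := by
    intro m
    ext E
    exact prod_dvd_iff (hprime E) m
  have hrr : ∀ (k : ℕ) (E : Fin k → Curve F), lcmN E =
      Run7.h95.NT.rr (fun E : Curve F => (disc E).natAbs.primeFactors) E := by
    intro k E
    unfold lcmN Run7.h95.NT.rr conductor
    rw [lcm_eq _ fun i => hprime (E i)]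
  refine ⟨?_, ?_⟩
  · obtain ⟨p1, p2, p3, p4, p5, p6⟩ := Run7.h95.NT.pack_up
      (A := fun E : Curve F => (disc E).natAbs.primeFactors) hprime hθ1
      (by positivity : (0 : ℝ) < ((4 : ℕ) : ℝ) * c₂)
      (by
        have : (1 : ℝ) ≤ C₀ := hC₀
        push_cast
        linarith : (1 : ℝ) ≤ ((4 : ℕ) : ℝ) * C₀) hup2 hunit2
    refine ⟨?_, ?_, ?_, ?_, ?_, ?_⟩
    · simp only [hV]
      exact p1
    · simp only [hrr]
      exact p2
    · simp only [hV, hrr]
      exact p3
    · simp only [hV, hrr]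
      exact p4
    · simp only [hV]
      exact p5
    · intro ψ hψ
      refine density_zero_mono (p6 (fun E => |(disc E : ℝ)|) ψ hψ) fun m hm => ?_
      by_contra hcon
      push Not at hcon
      apply hm
      intro W hW hFW hp
      have h1 := hcon ⟨(W.c₄, W.c₆), W, hW, hFW, rfl⟩ (by
        intro p hpm
        have hd : disc (⟨(W.c₄, W.c₆), W, hW, hFW, rfl⟩ : Curve F) = W.Δ := disc_eq rfl
        change p ∈ (disc (⟨(W.c₄, W.c₆), W, hW, hFW, rfl⟩ : Curve F)).natAbs.primeFactors at hpm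
        rw [hd] at hpm
        exact hp p (Nat.prime_of_mem_primeFactors hpm)
          (Int.natCast_dvd.2 (Nat.dvd_of_mem_primeFactors hpm)))
      have hd : disc (⟨(W.c₄, W.c₆), W, hW, hFW, rfl⟩ : Curve F) = W.Δ := disc_eq rfl
      rw [hd] at h1
      exact h1
  · intro c₁ X₀ hc₁ hlow δ hδ
    obtain ⟨-, -, -, -, -, p6, -⟩ := Run7.h95.NT.pack
      (A := fun E : Curve F => (disc E).natAbs.primeFactors) hprime hθ0 hθ1 hc₁
      (by positivity : (0 : ℝ) < ((4 : ℕ) : ℝ) * c₂)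
      (by
        have : (1 : ℝ) ≤ C₀ := hC₀
        push_cast
        linarith : (1 : ℝ) ≤ ((4 : ℕ) : ℝ) * C₀) hlow hup2 hunit2
    simp only [hV]
    exact p6 δ hδ

/-- **Semistable elliptic curves whose conductor divides a random natural number.**
(A) For every rational function `J = P / ∏ (X - r_l) ^ e_l` over `ℚ` with `L ≥ 3` different poles
`r_1, …, r_L`, all of them rational (and finite), the statements `Law` hold for the semistable curves
whose `j`-invariant is a value of `J`, with `θ = 2 / L`.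
(B) They hold for the semistable curves with full rational 2-torsion, with `θ = 2 / 3`, and for these
the tail in (5) is sharp: for every `δ > 0` there is `c > 0` such that for all `Z ≥ 1` the set of the
`m` which are divisible by the conductor of such a curve with conductor `> Z` has a natural density,
which is at least `c Z ^ (-1/3 - δ)`. -/
theorem result :
    (∀ (L : ℕ) (P : ℚ[X]) (r : Fin L → ℚ) (e : Fin L → ℕ), 3 ≤ L → Function.Injective r →
      (∀ l, 1 ≤ e l) → P.natDegree ≤ ∑ l, e l → (∀ l, P.eval (r l) ≠ 0) →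
      Law (InFamily P r e) (2 / (L : ℝ))) ∧
    Law FullTwoTorsion (2 / 3) ∧
    ∀ δ : ℝ, 0 < δ → ∃ c : ℝ, 0 < c ∧ ∀ Z : ℝ, 1 ≤ Z → ∃ τ : ℝ,
      Density (fun m => ∃ E ∈ T FullTwoTorsion m, Z < (conductor E : ℝ)) τ ∧
        c * Z ^ (-(1 / 3) - δ) ≤ τ := by
  classical
  have hT := law_of (F := FullTwoTorsion) Run7.h95.SZ.P₂ (L := 3) le_rfl Run7.h95.SZ.r₂
    Run7.h95.SZ.r₂_inj Run7.h95.SZ.e₂ (fun l => by fin_cases l <;> simp [Run7.h95.SZ.e₂])
    (by
      refine Run7.h95.SZ.P₂_deg.trans (le_of_eq ?_)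
      simp [Run7.h95.SZ.e₂, Fin.sum_univ_three]) (fun l => by
      fin_cases l <;> simp [Run7.h95.SZ.P₂, Run7.h95.SZ.r₂] <;> norm_num)
    (fun W hW hF => by
      obtain ⟨x, hx, hxj⟩ := Run7.h95.SZ.fullT_value W hF hW.1
      refine ⟨x, hx, ?_⟩
      rw [← hxj]
      cases x <;> rfl)
  have h3 : (2 : ℝ) / ((3 : ℕ) : ℝ) = 2 / 3 := by norm_num
  rw [h3] at hT
  refine ⟨fun L P r e hL hr he hdeg hPr => (law_of P hL r hr e he hdeg hPr fun W _ h => h).1,
    hT.1, fun δ hδ => ?_⟩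
  have hlow : ∀ X : ℝ, 80 ≤ X → ∃ S : Finset (Curve FullTwoTorsion),
      (∀ E ∈ S, (conductor E : ℝ) ≤ X) ∧ (1 / 200 : ℝ) * X ^ ((2 : ℝ) / 3) ≤ S.card := by
    intro X hX
    have hlog : 1 ≤ 2 * Real.log X := by
      have h1 : 1 ≤ Real.log X := by
        rw [Real.le_log_iff_exp_le (by linarith)]
        have := Real.exp_one_lt_d9
        linarith
      linarith
    have h1 := Pool.Agent.TH867.EC.cur_lower X (2 * Real.log X) hX le_rfl
    obtain ⟨C, hC, h2⟩ := Pool.Agent.TH867.EC.cur_all 1 one_pos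
    have hfin := (h2 X (2 * Real.log X) (by linarith) hlog).1
    obtain ⟨G, hG⟩ : ∃ G : Finset (ℤ × ℤ),
        ∀ q, q ∈ G ↔ q ∈ Pool.Agent.TH867.EC.Cur X (2 * Real.log X) :=
      ⟨hfin.toFinset, fun q => hfin.mem_toFinset⟩
    have hcard : (Pool.Agent.TH867.EC.Cur X (2 * Real.log X)).ncard = G.card := by
      rw [← Set.ncard_coe_finset]
      congr 1
      ext q
      exact (hG q).symm
    have hex : ∀ q : {q // q ∈ G}, ∃ E : Curve FullTwoTorsion,
        E.1 = q.1 ∧ (conductor E : ℝ) ≤ X := by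
      rintro ⟨q, hq⟩
      obtain ⟨W, w1, w2, w3, w4, w5, w6⟩ := (hG q).1 hq
      obtain ⟨E, hE⟩ : ∃ E : Curve FullTwoTorsion, E.1 = q :=
        ⟨⟨q, W, ⟨w1, w2⟩, w3, w4⟩, rfl⟩
      refine ⟨E, hE, ?_⟩
      unfold conductor
      rw [disc_eq (E := E) (hE.trans w4)]
      exact w5
    choose g hg1 hg2 using hex
    refine ⟨G.attach.image g, fun E hE => ?_, ?_⟩
    · obtain ⟨q, hq, rfl⟩ := Finset.mem_image.1 hE
      exact hg2 q
    · rw [Finset.card_image_of_injective, Finset.card_attach]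
      · rw [← hcard]
        exact h1
      · intro a b hab
        exact Subtype.ext (by rw [← hg1 a, ← hg1 b, hab])
  obtain ⟨c, hc, h⟩ := hT.2 (1 / 200) 80 (by norm_num) hlow δ hδ
  refine ⟨c, hc, fun Z hZ => ?_⟩
  obtain ⟨τ, h1, h2⟩ := h Z hZ
  refine ⟨τ, h1, ?_⟩
  have h4 : -(1 / 3 : ℝ) - δ = -(1 - 2 / 3) - δ := by ring
  rw [h4]
  exact h2

end Pool.Agent.Results.MP_d8bd92_nt.ConductorDividingRandom
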