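import Mathlib
import Pool.Agent.Run7.h577.SN

/-!
# The exceptional set in Szpiro's conjecture for semistable curves: the exact exponent for `1 < σ ≤ 3/2`

Among the semistable elliptic curves over `ℚ` with `|c₄| ≤ X²`, `|c₆| ≤ X³` (there are about `c X⁵` of them), the number
of those with `|Δ| ≥ C N ^ σ` is `X ^ (6/σ - 1 + o(1))` for every `1 < σ ≤ 3/2`, and at most `X ^ (3 + o(1))` for
`σ ≥ 3/2`. (The exponent `6/σ - 1` is zero for `σ = 6`, the exponent in Szpiro's conjecture.)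

Idea of the upper bound: a pair `(c, d) = (c₄, c₆)` with `d² ≡ c³` modulo `m² m₀` gives a binary cubic form `F` with
`F(x, y) = m` and whose covariants at `(x, y)` are `(c, d)`; with a reduced basis of the lattice of the `(w, v)` with
`w ≡ t v (mod m)` the coefficients of `F` are small, and the equation `F(x, y) = m` fixes its coefficients one after
another modulo `y`.
-/

set_option autoImplicit false

namespace Pool.Agent.Results.MP_d8bd92_nt.ExceptionalExponent

open Filter Topology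

/-- the conductor of a semistable curve: the product of the primes dividing the discriminant -/
def conductor (W : WeierstrassCurve ℤ) : ℕ := ∏ p ∈ W.Δ.natAbs.primeFactors, p

/-- `W` is an elliptic curve with semistable reduction at all primes: `Δ ≠ 0` and `gcd(c₄, Δ) = 1` (so `W` is a global
minimal model) -/
def Semistable (W : WeierstrassCurve ℤ) : Prop := W.Δ ≠ 0 ∧ IsCoprime W.c₄ W.Δ

/-- the semistable elliptic curves over `ℚ`, given by the invariants `(c₄, c₆)` of their global minimal models, with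
`|c₄| ≤ X²`, `|c₆| ≤ X³` and `|Δ| ≥ C N ^ σ` -/
def Curves (σ C X : ℝ) : Set (ℤ × ℤ) :=
  {q | ∃ W : WeierstrassCurve ℤ, Semistable W ∧ q = (W.c₄, W.c₆) ∧
    |(W.c₄ : ℝ)| ≤ X ^ 2 ∧ |(W.c₆ : ℝ)| ≤ X ^ 3 ∧ C * (conductor W : ℝ) ^ σ ≤ |(W.Δ : ℝ)|}

theorem curves_eq (σ C X : ℝ) : Curves σ C X = Run7.h577.S.SemD σ C X := rfl

/-- **Theorem.** (1) For all `σ > 1` and `C, ε > 0` there is `K` such that for every `X ≥ 1` at most
`K X ^ (max (6/σ - 1) 3 + ε)` semistable elliptic curves over `ℚ` with `|c₄| ≤ X²`, `|c₆| ≤ X³` have `|Δ| ≥ C N ^ σ`.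
(2) For `1 < σ ≤ 3/2` and `C > 0` the number of these curves is `X ^ (6/σ - 1 + o(1))`. -/
theorem result :
    (∀ σ C ε : ℝ, 1 < σ → 0 < C → 0 < ε → ∃ K : ℝ, ∀ X : ℝ, 1 ≤ X → (Curves σ C X).Finite ∧
      ((Curves σ C X).ncard : ℝ) ≤ K * X ^ (max (6 / σ - 1) 3 + ε)) ∧
    (∀ σ C : ℝ, 1 < σ → σ ≤ 3 / 2 → 0 < C →
      Tendsto (fun X : ℝ => Real.log ((Curves σ C X).ncard : ℝ) / Real.log X) atTop (𝓝 (6 / σ - 1))) := by
  refine ⟨?_, ?_⟩
  · intro σ C ε hσ hC hε
    have hfin : ∀ X : ℝ, (Curves σ C X).Finite := fun X =>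
      (Run7.h577.S.semH_fin σ C X).subset (Run7.h577.S.semD_sub σ C X)
    obtain ⟨K, hK, h⟩ := Run7.h577.S.semi_up ε (min σ 6) C hε (lt_min (by linarith) (by norm_num))
      (min_le_right _ _) hC
    refine ⟨2 * K, fun X hX => ⟨hfin X, ?_⟩⟩
    have hX0 : 0 < X := by linarith
    have hsub : Curves σ C X ⊆ Run7.h577.S.SemH (min σ 6) C X := by
      intro q hq
      obtain ⟨W, h1, h2, h3, h4, h5⟩ := Run7.h577.S.semD_sub σ C X hq
      refine ⟨W, h1, h2, h3, h4, le_trans ?_ h5⟩
      have hc : (1 : ℝ) ≤ (Run7.h577.S.cond W : ℝ) := by exact_mod_cast Run7.h577.S.cond_pos W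
      apply mul_le_mul_of_nonneg_left _ hC.le
      exact Real.rpow_le_rpow_of_exponent_le hc (min_le_left _ _)
    have h1 : ((Curves σ C X).ncard : ℝ) ≤ ((Run7.h577.S.SemH (min σ 6) C X).ncard : ℝ) := by
      exact_mod_cast Set.ncard_le_ncard hsub (Run7.h577.S.semH_fin _ _ _)
    refine h1.trans ((h X hX).trans ?_)
    set M : ℝ := max (6 / σ - 1) 3 with hM
    have h2 : X ^ (6 / min σ 6 - 1) ≤ X ^ M := by
      apply Real.rpow_le_rpow_of_exponent_le hX
      rcases le_total σ 6 with h6 | h6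
      · rw [min_eq_left h6]
        exact le_max_left _ _
      · rw [min_eq_right h6]
        have : (3 : ℝ) ≤ M := le_max_right _ _
        linarith
    have h3 : X ^ 3 ≤ X ^ M := by
      rw [← Real.rpow_natCast X 3]
      apply Real.rpow_le_rpow_of_exponent_le hX
      push_cast
      exact le_max_right _ _
    calc K * X ^ ε * (X ^ (6 / min σ 6 - 1) + X ^ 3) ≤ K * X ^ ε * (X ^ M + X ^ M) := by gcongr
      _ = 2 * K * X ^ (M + ε) := by rw [Real.rpow_add hX0]; ring
  · intro σ C hσ hσ2 hC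
    exact Run7.h577.S.semi_exp σ C C hσ hσ2 hC hC _ (fun X => Run7.h577.S.semD_sub σ C X)
      (fun X => le_rfl)

end Pool.Agent.Results.MP_d8bd92_nt.ExceptionalExponent
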