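import Pool.Agent.Run7.h197.N.Ell

/-!
# MP_d8bd92_nt: semistable curves whose minimal discriminant is a perfect power

Let `K` be a number field, `S` the set of the prime divisors of `q ≥ 1` and `j = F/G` a nonconstant
rational function over `K`, for instance the invariant of a one-parameter family of elliptic curves
which is not isotrivial.

By Szpiro's conjecture only finitely many semistable elliptic curves have a minimal discriminant
`D = u m^n` with `n ≥ 7`, where `u` is composed of the primes of `S` (then
`u m^n ≤ C (q m)^(6 + ε)`, so `m` and `D` are bounded). We prove this for large `n` in families.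

**Theorem.** Let `A` be a finite set of algebraic numbers and `M, D ≥ 0`. There are `n₀` and a FINITE
set `E` of parameters such that for all `t ∈ K` outside `E`, all `n ≥ n₀` and all elliptic curves `W`
with invariant `j(t)` which are semistable outside `S`, the minimal discriminant of `W` is not an
`n`-th power outside `S` (some prime outside `S` has an exponent that is not divisible by `n`), if
* `W` is defined over an extension `L` of `K` of degree at most `D`, and the image of `t` in `ℂ` under
  some embedding `φ` is close to a point `a` of `A ∪ {∞}`: `|φ(t) - a| ≤ H(t)^(-1/M)`, or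
  `|φ(t)| ≥ H(t)^(1/M)` for `a = ∞`, where `j` has two poles different from `a` on the projective
  line; or `t` is `S`-integral and `j` has two poles different from `∞`;
* `W` is defined over `K` and `t` is `S`-integral; there is no condition on the poles of `j`.

`n₀` and `E` do not depend on `L`. As every elliptic curve becomes semistable over an extension of
bounded degree, the first part says something about all elliptic curves over `K` with invariant
`j(t)`.

Proof.  At a place of multiplicative reduction the exponent of the minimal discriminant is the order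
of the pole of `j`. Hence for all places `v` outside `S` the pole orders of `j(t)` times `D!` are
divisible by `n`, and therefore (up to bounded factors) also the positive orders of `t - β`, `t - β'`
for two poles of `j`, outside a finite set of places. After a Moebius transformation `t` is large at
an archimedean place, so `(t - β)/(t - β')` is close to `1`. It is a product of an `n`-th power and of
powers of fixed numbers, and this contradicts the lower bounds for linear forms in logarithms over
number fields that are sharp in one of the heights (`Run7.h197.BK`, `Run7.h197.Q`) if `n` is large.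
For `S`-integral `t` these bounds are also needed at the primes of `S` (`Run7.h197.PB`); for
functions `j` with one or no finite pole one uses that the orders of `j(t)` and `j(t) - 1728` at the
places of good reduction are divisible by `3` and `2` (`Run7.h197.FMS`).
-/

set_option autoImplicit false

open NumberField Height IsDedekindDomain

namespace Pool.Agent.Results.MP_d8bd92_nt.PowerDiscriminants

section
variable {L : Type} [Field L] [NumberField L]

/-- `W'` is a Weierstrass equation of `W` over `L` with coefficients integral at `w` and one of `Δ`,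
`c₄` a unit at `w`: a minimal equation at `w`, with good or multiplicative reduction. -/
def SemistableModel (w : HeightOneSpectrum (𝓞 L)) (W W' : WeierstrassCurve L) : Prop :=
  (∃ C : WeierstrassCurve.VariableChange L, C • W = W') ∧
    (w.valuation L W'.a₁ ≤ 1 ∧ w.valuation L W'.a₂ ≤ 1 ∧ w.valuation L W'.a₃ ≤ 1 ∧
      w.valuation L W'.a₄ ≤ 1 ∧ w.valuation L W'.a₆ ≤ 1) ∧
    (w.valuation L W'.Δ = 1 ∨ w.valuation L W'.c₄ = 1)

/-- `W` is semistable at the primes of `L` which do not divide `q`. -/
def Semistable (q : ℕ) (W : WeierstrassCurve L) : Prop :=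
  ∀ w : HeightOneSpectrum (𝓞 L), (q : 𝓞 L) ∉ w.asIdeal → ∃ W', SemistableModel w W W'

/-- At every prime of `L` which does not divide `q` the exponent of the minimal discriminant is
divisible by `n`. -/
def PowerDiscriminant (q n : ℕ) (W : WeierstrassCurve L) : Prop :=
  ∀ w : HeightOneSpectrum (𝓞 L), (q : 𝓞 L) ∉ w.asIdeal → ∀ W', SemistableModel w W W' →
    ∃ x : L, w.valuation L W'.Δ = w.valuation L x ^ n

end

section
variable {K : Type} [Field K]

/-- `t` is an `S`-integer. -/
def SInt (q : ℕ) (t : K) : Prop := ∃ k : ℕ, IsIntegral ℤ ((q : K) ^ k * t)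

/-- The point of the complex projective line (`none` is the point at infinity) is a pole of `F/G`. -/
def Pole (F G : Polynomial K) (φ : K →+* ℂ) : Option ℂ → Prop
  | none => G.natDegree < F.natDegree
  | some b => (G.map φ).eval b = 0

/-- `F/G` has two poles different from the point `a`. -/
def TwoPoles (F G : Polynomial K) (φ : K →+* ℂ) (a : Option ℂ) : Prop :=
  ∃ b c : Option ℂ, b ≠ c ∧ b ≠ a ∧ c ≠ a ∧ Pole F G φ b ∧ Pole F G φ c

/-- `φ(t)` is close to the point `a`: `|φ(t)| ≥ H(t)^(1/M)` for the point at infinity, otherwise
`|φ(t) - a| ≤ H(t)^(-1/M)`; `H(t)` is the product over all places of `K` of `max(1, |t|_v)`. -/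
def Near [NumberField K] (φ : K →+* ℂ) (M : ℕ) (t : K) : Option ℂ → Prop
  | none => mulHeight₁ t ≤ ‖φ t‖ ^ M
  | some a => mulHeight₁ t * ‖φ t - a‖ ^ M ≤ 1

/-- The admissible parameters: close to a point `a` of `A ∪ {∞}` such that `F/G` has two poles
different from `a`, or `S`-integral if `F/G` has two poles different from infinity. -/
def Admissible [NumberField K] (F G : Polynomial K) (A : Finset ℂ) (q M : ℕ) (t : K) : Prop :=
  ∃ (φ : K →+* ℂ) (a : Option ℂ), (∀ x, a = some x → x ∈ A) ∧ TwoPoles F G φ a ∧
    (Near φ M t a ∨ (a = none ∧ SInt q t))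

end

/-- **Minimal discriminants of semistable curves are not high powers, outside a finite set of
parameters.** -/
theorem result (K : Type) [Field K] [NumberField K] (F G : Polynomial K) (hcop : IsCoprime F G)
    (hnc : F.natDegree ≠ 0 ∨ G.natDegree ≠ 0) (A : Finset ℂ) (hA : ∀ x ∈ A, IsAlgebraic ℚ x)
    (q M D : ℕ) (hq : q ≠ 0) :
    ∃ (n₀ : ℕ) (E : Set K), E.Finite ∧ ∀ t ∉ E, G.eval t ≠ 0 →
      (Admissible F G A q M t →
        ∀ (L : Type) [Field L] [NumberField L] [Algebra K L], Module.finrank K L ≤ D →
          ∀ (W : WeierstrassCurve L) [W.IsElliptic], W.j = algebraMap K L (F.eval t / G.eval t) →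
            Semistable q W → ∀ n, n₀ ≤ n → ¬ PowerDiscriminant q n W) ∧
      (SInt q t → ∀ (W : WeierstrassCurve K) [W.IsElliptic], W.j = F.eval t / G.eval t →
        Semistable q W → ∀ n, n₀ ≤ n → ¬ PowerDiscriminant q n W) := by
  have hG : G ≠ 0 := by
    rintro rfl
    rw [isCoprime_zero_right] at hcop
    rcases hnc with h | h
    · exact h (Polynomial.natDegree_eq_zero_of_isUnit hcop)
    · simp at h
  obtain ⟨n₁, E₁, f₁, h₁⟩ := Run7.h197.N.disc F G hcop hG A hA q M D hq
  obtain ⟨n₂, E₂, f₂, h₂⟩ := Run7.h197.N.disc_int F G hcop hnc q hq
  refine ⟨n₁ + n₂, E₁ ∪ E₂, f₁.union f₂, fun t ht hGt => ?_⟩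
  rw [Set.mem_union, not_or] at ht
  constructor
  · rintro ⟨φ, a, ha, h2, h3⟩ L _ _ _ hL W _ hj hss n hn hP
    have h2' : Run7.h197.N.TwoPoles F G φ a := by
      obtain ⟨b, c, hbc, hb, hc, pb, pc⟩ := h2
      refine ⟨b, c, hbc, hb, hc, ?_, ?_⟩
      · rcases b with _ | b <;> exact pb
      · rcases c with _ | c <;> exact pc
    have h3' : Run7.h197.N.Near φ M t a ∨ (a = none ∧ Pool.Agent.K4H56.IF.IntN q t) := by
      rcases h3 with h3 | h3
      · left
        rcases a with _ | a <;> exact h3
      · exact Or.inr h3
    obtain ⟨w, hw, W', hW', hx⟩ := h₁ t ht.1 hGt ⟨φ, a, ha, h2', h3'⟩ L hL W hj hss n (by omega)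
    obtain ⟨x, hx'⟩ := hP w hw W' hW'
    exact hx x hx'
  · intro hint W _ hj hss n hn hP
    obtain ⟨w, hw, W', hW', hx⟩ := h₂ t ht.2 hGt hint W hj hss n (by omega)
    obtain ⟨x, hx'⟩ := hP w hw W' hW'
    exact hx x hx'

end Pool.Agent.Results.MP_d8bd92_nt.PowerDiscriminants
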