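import Pool.Agent.Run7.h430.TW.Szp
import Pool.Agent.Results.MP_d8bd92_nt.TwoTorsionPoint
import Pool.Agent.Results.MP_d8bd92_nt.ExceptionalSet
import Pool.Agent.Results.MP_d8bd92_nt.ThreeIsogeny

/-!
# Szpiro's inequality for the semistable elliptic curves of height near the members of almost all orbits of Euler's function

Let `φ_k` be the `k`-th iterate of Euler's function, `φ_0(m) = m`. Let `f` be a positive multiplicative function of at most
polynomial growth such that `f p ≤ M p` for the large primes `p`, with different values at different large primes; for example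
the identity, Euler's function or the sum of the divisors. Let `G` have steps bounded below by a positive constant and growth
at most `v^d`; for example `G v = α v^d` with `α > 0`. The height of an integral Weierstrass curve `W` is
`H = max (|c₄|³, c₆²)^(1/6)`, and `N` is the product of the primes dividing the discriminant `Δ`; if `Δ ≠ 0` and
`gcd (c₄, Δ) = 1`, then `W` is the minimal model of a semistable curve, and `N` its conductor.

Let `C` be one of the following classes of semistable elliptic curves over `ℚ`, `l` the exponent in Szpiro's inequality and `s`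
the number in the list, and let `κ ≥ 0`, `d s + κ < 1`. There is `K(m)` tending to infinity such that for almost all `m`, for
all `k ≤ K(m)`, with `v = f(φ_k(m))`, ALL semistable curves of the class `C` whose height is within `v^κ` of `G v` satisfy
`K(m) |Δ| ≤ N^l`.

* `l ≥ 6`, the curves with a rational point of order two, `s = 7/8`;
* `l > 0`, the curves with full rational 2-torsion, `s = 6/11 + max (6/l - 1, 0)`; this is less than `1` for all `l > 33/8`, so
  that here exponents `l` SMALLER than `6` are admissible, with which the inequality fails infinitely often;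
* `l ≥ 6`, the curves with a rational isogeny of degree three, `s = min (9/11, 2/7 + 24/(7l))`.

The iterates of Euler's function are not multiplicative, their values form a thin set and are taken with very large
multiplicities, and the windows contain many curves of every class, so this does not follow from the counts of the exceptional
curves alone. Proof: these counts (starting theorems of this problem), the tool `N760/IT` of the starting files, and a
diagonal argument (`Run7/h430/TW/Szp`).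
-/

set_option autoImplicit false

namespace Pool.Agent.Results.MP_d8bd92_nt.TotientOrbits

open Finset Filter Topology

/-- the product of the distinct primes dividing `Δ(W)` (the conductor if `gcd(c₄, Δ) = 1`) -/
def conductor (W : WeierstrassCurve ℤ) : ℕ := ∏ p ∈ W.Δ.natAbs.primeFactors, p

/-- the height `max (|c₄| ^ 3, c₆ ^ 2) ^ (1/6)` -/
noncomputable def height (W : WeierstrassCurve ℤ) : ℝ := (max (|(W.c₄ : ℝ)| ^ 3) ((W.c₆ : ℝ) ^ 2)) ^ (1 / 6 : ℝ)

/-- there is a rational point of order 2: `4x³ + b₂x² + 2b₄x + b₆` has a rational root -/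
def HasTwoTorsion (W : WeierstrassCurve ℤ) : Prop :=
  ∃ r : ℚ, 4 * r ^ 3 + W.b₂ * r ^ 2 + 2 * W.b₄ * r + W.b₆ = 0

/-- all 2-torsion points are rational: `4x³ + b₂x² + 2b₄x + b₆` splits over `ℚ` -/
def FullTwoTorsion (W : WeierstrassCurve ℤ) : Prop :=
  ∃ r₁ r₂ r₃ : ℚ, ∀ x : ℚ,
    4 * x ^ 3 + W.b₂ * x ^ 2 + 2 * W.b₄ * x + W.b₆ = 4 * (x - r₁) * (x - r₂) * (x - r₃)

/-- there is a rational isogeny of degree 3 (a rational subgroup of order 3): the 3-division
polynomial `3x⁴ + b₂x³ + 3b₄x² + 3b₆x + b₈` has a rational root -/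
def HasThreeIsogeny (W : WeierstrassCurve ℤ) : Prop :=
  ∃ r : ℚ, 3 * r ^ 4 + W.b₂ * r ^ 3 + 3 * W.b₄ * r ^ 2 + 3 * W.b₆ * r + W.b₈ = 0

/-- A positive multiplicative function of at most polynomial growth, at most `M p` at the large primes `p` and with different
values at different large primes. -/
structure Moderate (f : ℕ → ℕ) : Prop where
  mul : ∀ m n : ℕ, Nat.Coprime m n → f (m * n) = f m * f n
  pos : ∀ m : ℕ, 1 ≤ m → 1 ≤ f m
  growth : ∃ C D : ℕ, ∀ m : ℕ, 1 ≤ m → f m ≤ C * m ^ D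
  prime : ∃ P M : ℕ, ∀ p : ℕ, P ≤ p → p.Prime → f p ≤ M * p ∧ ∀ q : ℕ, P ≤ q → q.Prime → f q = f p → q = p

/-- The steps of `G` are at least a positive constant, and `G` grows at most like `v ^ d`, `d ≥ 1`. -/
structure Expanding (G : ℕ → ℝ) (d : ℝ) : Prop where
  one_le : 1 ≤ d
  step : ∃ a : ℝ, 0 < a ∧ ∀ v : ℕ, 1 ≤ v → a ≤ G (v + 1) - G v
  growth : ∃ C : ℝ, ∀ v : ℕ, 1 ≤ v → G v ≤ C * (v : ℝ) ^ d

open Classical in
/-- The proportion of the positive integers `m ≤ N` without the property `P` tends to `0`. -/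
def AlmostAll (P : ℕ → Prop) : Prop :=
  Tendsto (fun N : ℕ => (((Icc 1 N).filter (fun m => ¬ P m)).card : ℝ) / N) atTop (𝓝 0)

/-- the value of `f` at the `k`-th iterate of Euler's function -/
def orb (f : ℕ → ℕ) (k m : ℕ) : ℕ := f (Nat.totient^[k] m)

/-- For all admissible `f`, `G`, `d` and `κ ≥ 0` with `d s + κ < 1`, for a suitable `K` tending to infinity, for almost all
`m` and all `k ≤ K m`, all semistable curves of the class `C` with a height within `v ^ κ` of `G v`, `v = f (φ_k m)`, satisfy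
Szpiro's inequality `K(m) |Δ| ≤ N ^ l`. -/
def SzpiroNear (C : WeierstrassCurve ℤ → Prop) (s l : ℝ) : Prop :=
  ∀ f : ℕ → ℕ, Moderate f → ∀ (G : ℕ → ℝ) (d : ℝ), Expanding G d → ∀ κ : ℝ, 0 ≤ κ → d * s + κ < 1 →
    ∃ K : ℕ → ℕ, Tendsto K atTop atTop ∧ AlmostAll (fun m => ∀ k ≤ K m, ∀ W : WeierstrassCurve ℤ,
      W.Δ ≠ 0 → IsCoprime W.c₄ W.Δ → C W → |height W - G (orb f k m)| ≤ (orb f k m : ℝ) ^ κ →
        (K m : ℝ) * |(W.Δ : ℝ)| ≤ (conductor W : ℝ) ^ l)

theorem cond_pos (W : WeierstrassCurve ℤ) : (1 : ℝ) ≤ (conductor W : ℝ) := by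
  have : 0 < conductor W := Finset.prod_pos (fun p hp => (Nat.prime_of_mem_primeFactors hp).pos)
  exact_mod_cast this

/-- the invariants of the exceptional curves of a class in a box -/
def Exc (C : WeierstrassCurve ℤ → Prop) (l c : ℝ) (X : ℕ) : Set (ℤ × ℤ) :=
  {q | ∃ W : WeierstrassCurve ℤ, W.Δ ≠ 0 ∧ IsCoprime W.c₄ W.Δ ∧ C W ∧
    q = (W.c₄, W.c₆) ∧ |W.c₄| ^ 3 ≤ (X : ℤ) ^ 6 ∧ W.c₆ ^ 2 ≤ (X : ℤ) ^ 6 ∧
    c * (conductor W : ℝ) ^ l < |(W.Δ : ℝ)|}

theorem near_of {C : WeierstrassCurve ℤ → Prop} {s l : ℝ} (hs : 0 ≤ s)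
    (hcount : ∀ c : ℝ, 0 < c → ∀ ε : ℝ, 0 < ε → ∃ B : ℝ, ∀ X : ℕ, 1 ≤ X →
      (Exc C l c X).Finite ∧ ((Exc C l c X).ncard : ℝ) ≤ B * (X : ℝ) ^ (s + ε)) : SzpiroNear C s l := by
  intro f hf G d hG κ hκ h1
  have hd := hG.one_le
  have hs1 : s ≤ 2 := by nlinarith
  obtain ⟨K, hK, hK2⟩ := Run7.h430.TW.orbit_windows_slow
    (fun j => {q : ℤ × ℤ | ∃ W : WeierstrassCurve ℤ, W.Δ ≠ 0 ∧ IsCoprime W.c₄ W.Δ ∧ C W ∧ q = (W.c₄, W.c₆) ∧
      1 / ((j : ℝ) + 1) * (conductor W : ℝ) ^ l < |(W.Δ : ℝ)|})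
    (fun i j hij q hq => by
      obtain ⟨W, q1, q2, q3, q4, q5⟩ := hq
      refine ⟨W, q1, q2, q3, q4, lt_of_le_of_lt (mul_le_mul_of_nonneg_right ?_ (by positivity)) q5⟩
      apply one_div_le_one_div_of_le (by positivity)
      have : (i : ℝ) ≤ j := by exact_mod_cast hij
      linarith)
    Run7.h430.TW.ht6 (f := f) ⟨hf.mul, hf.pos, hf.growth, hf.prime⟩ (G := G) (d := d) ⟨hG.one_le, hG.step, hG.growth⟩
    hs hκ h1 (fun j => Run7.h430.TW.to_height _ _ (fun X => Exc C l (1 / ((j : ℝ) + 1)) X)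
      (fun q X _ hq hX => by
        obtain ⟨W, q1, q2, q3, q4, q5⟩ := hq
        have h2 := Run7.h430.TW.ht6_le hX
        rw [q4] at h2
        exact ⟨W, q1, q2, q3, q4, h2.1, h2.2, q5⟩) hs hs1
      (hcount (1 / ((j : ℝ) + 1)) (by positivity)))
  refine ⟨K, hK, Pool.Agent.N826.IT.Orb.almostAll_mono hK2 (fun m hm k hk W ha hb hC hw => ?_)⟩
  by_contra hcon
  rw [not_le] at hcon
  refine hm k hk (W.c₄, W.c₆) ⟨W, ha, hb, hC, rfl, ?_⟩ hw
  rw [one_div, inv_mul_lt_iff₀ (by positivity)]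
  refine lt_of_lt_of_le hcon (mul_le_mul_of_nonneg_right ?_ (abs_nonneg _))
  exact (lt_add_one _).le

/-- **Szpiro's inequality for semistable curves near the orbits of Euler's function.** -/
theorem result :
    (∀ l : ℝ, 6 ≤ l →
      SzpiroNear HasTwoTorsion (7 / 8) l ∧
      SzpiroNear HasThreeIsogeny (min (9 / 11) (2 / 7 + 24 / (7 * l))) l) ∧
    (∀ l : ℝ, 0 < l → SzpiroNear FullTwoTorsion (6 / 11 + max (6 / l - 1) 0) l) ∧
    (Moderate (fun m => m) ∧ Moderate Nat.totient ∧ Moderate (fun m => ∑ d ∈ m.divisors, d)) ∧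
    ∀ α d : ℝ, 0 < α → 1 ≤ d → Expanding (fun v => α * (v : ℝ) ^ d) d := by
  refine ⟨fun l hl => ⟨?_, ?_⟩, fun l hl => ?_, ?_, fun α d hα hd => ?_⟩
  · refine near_of (by norm_num) (fun c hc ε hε => ?_)
    obtain ⟨B, hB⟩ := TwoTorsionPoint.result c ε hc hε
    refine ⟨B, fun X hX => ?_⟩
    obtain ⟨h1, h2⟩ := hB X hX
    have hsub : Exc HasTwoTorsion l c X ⊆ TwoTorsionPoint.Exceptional c X := by
      rintro q ⟨W, q1, q2, q3, q4, q5, q6, q7⟩
      refine ⟨W, q1, q2, q3, q4, q5, q6, lt_of_le_of_lt (mul_le_mul_of_nonneg_left ?_ hc.le) q7⟩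
      change (conductor W : ℝ) ^ 6 ≤ (conductor W : ℝ) ^ l
      rw [← Real.rpow_natCast]
      exact Real.rpow_le_rpow_of_exponent_le (cond_pos W) (by push_cast; exact hl)
    refine ⟨h1.subset hsub, le_trans ?_ h2⟩
    exact_mod_cast Set.ncard_le_ncard hsub h1
  · refine near_of (le_min (by norm_num) (by positivity)) (fun c hc ε hε => ?_)
    exact ThreeIsogeny.result l c ε hl hc hε
  · refine near_of (by positivity) (fun c hc ε hε => ?_)
    exact ExceptionalSet.result l c ε hl hc hε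
  · exact ⟨⟨Pool.Agent.N760.IT.lm_id.mul, Pool.Agent.N760.IT.lm_id.pos, Pool.Agent.N760.IT.lm_id.growth,
        Pool.Agent.N760.IT.lm_id.prime⟩,
      ⟨Pool.Agent.N733.TG.lm_totient.mul, Pool.Agent.N733.TG.lm_totient.pos, Pool.Agent.N733.TG.lm_totient.growth,
        Pool.Agent.N733.TG.lm_totient.prime⟩,
      ⟨Pool.Agent.N733.TG.lm_sigma.mul, Pool.Agent.N733.TG.lm_sigma.pos, Pool.Agent.N733.TG.lm_sigma.growth,
        Pool.Agent.N733.TG.lm_sigma.prime⟩⟩
  · obtain ⟨h1, h2, h3⟩ := Pool.Agent.N733.TG.expanding_pow hα hd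
    exact ⟨h1, h2, h3⟩

end Pool.Agent.Results.MP_d8bd92_nt.TotientOrbits
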